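import Pool.Agent.H37.Sne3

namespace Pool.Agent.Results.MP_3b7dc8_lc.No

open Pool.Agent.H37.Sne

theorem result : ∀ p : Polynomial ℕ,
    ∃ (V P : Type) (_ : Fintype V) (_ : Fintype P) (_ : DecidableEq P) (G : Game V P)
      (x y : P → ℚ) (ε : ℚ), 0 < ε ∧
      (∃ σ, G.Stat σ ∧ G.NE 0 σ ∧ G.NE ε σ ∧ G.Sat (fun i => x i + ε) (fun i => y i - ε) σ ∧
        G.Sat x y σ) ∧
      ∀ σ, G.Stat σ → G.StatNE ε σ → G.Sat x y σ →
        (∃ u i w, G.kind u = Kind.player i ∧ 0 < σ u w ∧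
          σ u w < (1 / 2) ^ p.eval (G.size x y ε)) ∧
        ∀ L ≤ p.eval (G.size x y ε), ¬ G.Fixed L σ := by
  intro p
  obtain ⟨t₀, ht⟩ := poly_lt_exp
    (p.comp (Polynomial.C 30000 * (Polynomial.C 2 * Polynomial.X + 2) ^ 6))
  have h1 := ht t₀ le_rfl
  simp only [Polynomial.eval_comp, Polynomial.eval_mul, Polynomial.eval_C, Polynomial.eval_pow,
    Polynomial.eval_add, Polynomial.eval_X, Polynomial.eval_ofNat] at h1
  set m := 2 * t₀ + 1 with hm
  have h2 : p.eval ((game m).size (fun _ => 3 / 8) (fun _ => 5 / 8) (1 / 8)) ≤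
      2 ^ ((m + 1) / 2) := by
    have a := poly_mono p (size_le (m := m))
    have b : 2 ^ t₀ ≤ 2 ^ ((m + 1) / 2) := Nat.pow_le_pow_right (by norm_num) (by omega)
    have c : m + 1 = 2 * t₀ + 2 := by omega
    rw [c] at a
    omega
  refine ⟨Vx m, Pl m, inferInstance, inferInstance, inferInstance, game m, fun _ => 3 / 8,
    fun _ => 5 / 8, 1 / 8, by norm_num, ⟨eqm, eqm_stat, ?_, ?_, ?_, ?_⟩, ?_⟩
  · intro i τ hτ
    have := dev_le i τ hτ
    rw [eqm_E]; linarith
  · intro i τ hτ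
    have := dev_le i τ hτ
    rw [eqm_E]; push_cast; linarith
  · intro i; rw [eqm_E]; push_cast; norm_num
  · intro i; rw [eqm_E]; push_cast; norm_num
  · intro σ hσ hne hsat
    have hne' : (game m).StatNE (1 / 8) σ := by
      have e : (((1 / 8 : ℚ)) : ℝ) = 1 / 8 := by push_cast; rfl
      rwa [e] at hne
    obtain ⟨u, i, w, hk, p0, p1⟩ := tiny (by omega) hσ hne' (fun i => by
      have := (hsat i).2
      push_cast at this
      exact this)
    have p2 : σ u w < (1 / 2) ^ p.eval ((game m).size (fun _ => 3 / 8) (fun _ => 5 / 8) (1 / 8)) :=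
      lt_of_lt_of_le p1 (pow_le_pow_of_le_one (by norm_num) (by norm_num) h2)
    refine ⟨⟨u, i, w, hk, p0, p2⟩, fun L hL hF => ?_⟩
    obtain ⟨z, hz⟩ := hF u i w hk
    have p3 : σ u w < (1 / 2) ^ L :=
      lt_of_lt_of_le p2 (pow_le_pow_of_le_one (by norm_num) (by norm_num) hL)
    rw [hz] at p0 p3
    have hpos : (0 : ℝ) < 2 ^ L := by positivity
    have z0 : (0 : ℝ) < z := by
      by_contra h
      push Not at h
      exact absurd p0 (not_lt.2 (div_nonpos_of_nonpos_of_nonneg h hpos.le))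
    have z1 : (1 : ℝ) ≤ z := by
      have : (0 : ℤ) < z := by exact_mod_cast z0
      exact_mod_cast this
    rw [one_div, inv_pow, div_lt_iff₀ hpos, inv_mul_cancel₀ hpos.ne'] at p3
    linarith

end Pool.Agent.Results.MP_3b7dc8_lc.No
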